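import Pool.Agent.H96.CUR.Final

/-!
# Every collapsible complex has a convex union representable subdivision
-/

namespace Pool.Agent.Results.MP_bce56d_co.CollapsibleSubdivision

open Pool.Agent.H96.CUR

/-- Every collapsible finite simplicial complex has a subdivision that is convex union
representable. -/
theorem result {V : Type*} [Finite V] (K : PreAbstractSimplicialComplex V)
    (hK : Collapsible K) :
    ∃ (W : Type) (_ : Finite W) (K' : PreAbstractSimplicialComplex W),
      IsSubdivision K' K ∧ ConvexUnionRepresentable K' :=
  main K hK

end Pool.Agent.Results.MP_bce56d_co.CollapsibleSubdivision
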